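import Pool.Agent.X123.MT.Dim

/-!
# Exceptional sets of zero counting exponent, and targets outside a set of dimension zero
-/

set_option autoImplicit false

namespace Pool.Agent.X123.MT

open scoped ENNReal

/-- countably many sets of counting exponent `e`: targets outside a set of dimension `≤ e / τ` -/
theorem pos_dim {V X I : Type} [Countable I] [MetricSpace X] (A : I → Set V) (w : V → ℝ)
    (hw : ∀ i, ∀ x ∈ A i, 0 ≤ w x) {e τ : ℝ} (he : 0 ≤ e) (hτ : 0 < τ)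
    (hc : ∀ i, Cnt (A i) w e) (σ : V → X) :
    ∃ E : Set X, dimH E ≤ ENNReal.ofReal (e / τ) ∧ ∀ y : X, y ∉ E → ∀ i,
      {x | x ∈ A i ∧ dist y (σ x) ≤ Real.exp (-(τ * w x))}.Finite := by
  refine ⟨⋃ i, {y : X | {x | x ∈ A i ∧ dist y (σ x) ≤ Real.exp (-(τ * w x))}.Infinite}, ?_,
    fun y hy i => ?_⟩
  · rw [dimH_iUnion]
    exact iSup_le fun i => dim_le (A i) w (hw i) he hτ (hc i) σ
  · rw [Set.mem_iUnion] at hy
    push Not at hy
    by_contra h
    exact hy i h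

/-- countably many sets of counting exponent `0`: targets outside a set of dimension `0` -/
theorem zero_dim {V X I : Type} [Countable I] [MetricSpace X] (A : I → Set V) (w : V → ℝ)
    (hw : ∀ i, ∀ x ∈ A i, 0 ≤ w x) (hc : ∀ i, Cnt (A i) w 0) (σ : V → X) :
    ∃ E : Set X, dimH E = 0 ∧ ∀ y : X, y ∉ E → ∀ i, ∀ τ : ℝ, 0 < τ →
      {x | x ∈ A i ∧ dist y (σ x) ≤ Real.exp (-(τ * w x))}.Finite := by
  have h1 : ∀ k : ℕ, ∃ E : Set X, dimH E ≤ ENNReal.ofReal (0 / (1 / ((k : ℝ) + 1))) ∧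
      ∀ y : X, y ∉ E → ∀ i,
        {x | x ∈ A i ∧ dist y (σ x) ≤ Real.exp (-(1 / ((k : ℝ) + 1) * w x))}.Finite := fun k =>
    pos_dim A w hw le_rfl (by positivity) hc σ
  choose E hE1 hE2 using h1
  refine ⟨⋃ k, E k, ?_, fun y hy i τ hτ => ?_⟩
  · rw [← nonpos_iff_eq_zero, dimH_iUnion]
    refine iSup_le fun k => (hE1 k).trans ?_
    simp
  · rw [Set.mem_iUnion] at hy
    push Not at hy
    obtain ⟨k, hk⟩ := exists_nat_one_div_lt hτ
    refine (hE2 k y (hy k) i).subset fun x hx => ⟨hx.1, hx.2.trans (Real.exp_le_exp.2 ?_)⟩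
    have := mul_le_mul_of_nonneg_right hk.le (hw i x hx.1)
    linarith

/-- a power bound gives a counting exponent -/
theorem cnt_of_pow {V : Type*} {A : Set V} {H : V → ℝ} (hH : ∀ x ∈ A, 0 < H x) {e : ℝ}
    (h : ∀ ε : ℝ, 0 < ε → ∃ C : ℝ, ∀ X : ℝ, 1 ≤ X → {x | x ∈ A ∧ H x ≤ X}.Finite ∧
      ({x | x ∈ A ∧ H x ≤ X}.ncard : ℝ) ≤ C * X ^ (e + ε)) :
    Cnt A (fun x => Real.log (H x)) e := by
  intro δ hδ
  obtain ⟨C, hC⟩ := h δ hδ
  refine ⟨C, fun t ht => ?_⟩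
  have h1 := hC (Real.exp t) (Real.one_le_exp ht)
  have hset : {x | x ∈ A ∧ Real.log (H x) ≤ t} = {x | x ∈ A ∧ H x ≤ Real.exp t} := by
    ext x
    exact and_congr_right fun hx => Real.log_le_iff_le_exp (hH x hx)
  rw [hset]
  refine ⟨h1.1, h1.2.trans (le_of_eq ?_)⟩
  rw [← Real.exp_mul]
  congr 2
  ring

/-- sets of dimension `≤ 1 / (k + 1)`: outside a set of dimension zero, all but finitely many levels
are avoided -/
theorem levels {X I : Type} [Countable I] [MetricSpace X] (G : ℕ → I → Set X)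
    (hG : ∀ k i, dimH (G k i) ≤ ENNReal.ofReal (1 / ((k : ℝ) + 1))) :
    ∃ E : Set X, dimH E = 0 ∧ ∀ y : X, y ∉ E → ∃ J : ℕ, ∀ k : ℕ, J ≤ k → ∀ i, y ∉ G k i := by
  refine ⟨⋂ J : ℕ, ⋃ k : ℕ, ⋃ i, G (J + k) i, ?_, fun y hy => ?_⟩
  · rw [← nonpos_iff_eq_zero]
    apply le_of_forall_pos_le_add
    intro η hη
    rw [zero_add]
    obtain ⟨J, hJ⟩ : ∃ J : ℕ, ENNReal.ofReal (1 / ((J : ℝ) + 1)) ≤ η := by
      have ht : Filter.Tendsto (fun J : ℕ => ENNReal.ofReal (1 / ((J : ℝ) + 1))) Filter.atTop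
          (nhds 0) := by
        rw [← ENNReal.ofReal_zero]
        exact ENNReal.tendsto_ofReal tendsto_one_div_add_atTop_nhds_zero_nat
      exact ((ht.eventually (ge_mem_nhds hη)).exists)
    refine (dimH_mono (Set.iInter_subset _ J)).trans ?_
    rw [dimH_iUnion]
    refine iSup_le fun k => ?_
    rw [dimH_iUnion]
    refine iSup_le fun e => (hG _ _).trans (le_trans (ENNReal.ofReal_le_ofReal ?_) hJ)
    apply one_div_le_one_div_of_le (by positivity)
    push_cast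
    have : (0 : ℝ) ≤ k := Nat.cast_nonneg k
    linarith
  · rw [Set.mem_iInter] at hy
    push Not at hy
    obtain ⟨J, hJ⟩ := hy
    refine ⟨J, fun k hJk i => ?_⟩
    rw [Set.mem_iUnion] at hJ
    push Not at hJ
    have h1 := hJ (k - J)
    rw [Set.mem_iUnion] at h1
    push Not at h1
    have h2 := h1 i
    rwa [Nat.add_sub_cancel' hJk] at h2

/-- `dist ≤ H ^ (-τ)` and `dist ≤ exp (-(τ log H))` -/
theorem exp_eq_pow {H : ℝ} (hH : 0 < H) (τ : ℝ) : Real.exp (-(τ * Real.log H)) = H ^ (-τ) := by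
  rw [Real.rpow_def_of_pos hH]
  congr 1
  ring

end Pool.Agent.X123.MT
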