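import Pool.Agent.X123.MT.Gen

/-!
# Sets of small Hausdorff dimension are null sets
-/

set_option autoImplicit false

namespace Pool.Agent.X123.MT

open MeasureTheory Module
open scoped ENNReal

theorem null_of_dim {F : Type*} [NormedAddCommGroup F] [NormedSpace ℝ F] [FiniteDimensional ℝ F]
    [MeasurableSpace F] [BorelSpace F] (μ : Measure F) [μ.IsAddHaarMeasure] {E : Set F}
    (h : dimH E < (finrank ℝ F : ℝ≥0∞)) : μ E = 0 := by
  have h1 : dimH E < ((finrank ℝ F : NNReal) : ℝ≥0∞) := by
    simpa using h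
  have h2 := hausdorffMeasure_of_dimH_lt h1
  have h3 : (Measure.hausdorffMeasure (finrank ℝ F : ℝ) : Measure F).IsAddHaarMeasure :=
    isAddHaarMeasure_hausdorffMeasure
  have h4 : (Measure.hausdorffMeasure (finrank ℝ F : ℝ) : Measure F) E = 0 := by
    simpa using h2
  exact Measure.absolutelyContinuous_isAddHaarMeasure μ
    (Measure.hausdorffMeasure (finrank ℝ F : ℝ)) h4

/-- a set of real numbers of dimension `< 1` is null -/
theorem null_real {E : Set ℝ} {t : ℝ} (ht : t < 1) (h : dimH E ≤ ENNReal.ofReal t) :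
    volume E = 0 := by
  apply null_of_dim
  rw [Module.finrank_self]
  refine lt_of_le_of_lt h ?_
  rw [Nat.cast_one, ENNReal.ofReal_lt_one]
  exact ht

/-- a set of complex numbers of dimension `< 2` is null -/
theorem null_complex {E : Set ℂ} {t : ℝ} (ht : t < 2) (h : dimH E ≤ ENNReal.ofReal t) :
    volume E = 0 := by
  apply null_of_dim
  rw [Complex.finrank_real_complex]
  refine lt_of_le_of_lt h ?_
  have h2 : ((2 : ℕ) : ℝ≥0∞) = ENNReal.ofReal 2 := by simp
  rw [h2]
  exact (ENNReal.ofReal_lt_ofReal_iff (by norm_num)).2 ht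

end Pool.Agent.X123.MT
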