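import Pool.Agent.X123.MT.Line
import Pool.Agent.Y314.FD.DimUp

/-!
# The dimension of the set of well approximable targets
-/

set_option autoImplicit false

namespace Pool.Agent.X123.MT

open Filter Topology
open scoped ENNReal NNReal

theorem dim_le {V X : Type} [MetricSpace X] (A : Set V) (w : V → ℝ) (hw : ∀ x ∈ A, 0 ≤ w x)
    {e τ : ℝ} (he : 0 ≤ e) (hτ : 0 < τ) (hc : Cnt A w e) (σ : V → X) :
    dimH {y : X | {x | x ∈ A ∧ dist y (σ x) ≤ Real.exp (-(τ * w x))}.Infinite} ≤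
      ENNReal.ofReal (e / τ) := by
  classical
  by_contra hcon
  push Not at hcon
  obtain ⟨r, hr1, hr2⟩ := ENNReal.lt_iff_exists_nnreal_btwn.1 hcon
  have hr3 : e / τ < r := by
    have h1 : ENNReal.ofReal (e / τ) < ENNReal.ofReal (r : ℝ) := by
      rw [ENNReal.ofReal_coe_nnreal]; exact hr1
    exact (ENNReal.ofReal_lt_ofReal_iff_of_nonneg (by positivity)).1 h1
  apply absurd hr2
  rw [not_lt]
  obtain ⟨s, hs⟩ : ∃ s : ℝ, s = (r : ℝ) := ⟨_, rfl⟩
  rw [← hs] at hr3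
  have hsτ : e < s * τ := by rwa [div_lt_iff₀ hτ] at hr3
  have hs0 : 0 < s := lt_of_le_of_lt (by positivity) hr3
  obtain ⟨δ, hδ⟩ : ∃ δ : ℝ, δ = (s * τ - e) / 2 := ⟨_, rfl⟩
  have hδ0 : 0 < δ := by linarith
  obtain ⟨C, hC⟩ := hc δ hδ0
  obtain ⟨b, hb⟩ : ∃ b : ℝ, b = Real.exp (-τ) := ⟨_, rfl⟩
  have hb0 : 0 < b := by rw [hb]; exact Real.exp_pos _
  have hb1 : b < 1 := by rw [hb, Real.exp_lt_one_iff]; linarith
  have hbv : ∀ v : ℕ, b ^ v = Real.exp (-(τ * v)) := by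
    intro v
    rw [hb, ← Real.exp_nat_mul]
    congr 1
    ring
  have hfin : ∀ v : ℕ, {x | x ∈ A ∧ w x ≤ (v : ℝ) + 1}.Finite := fun v => (hC _ (by positivity)).1
  obtain ⟨F, hF⟩ : ∃ F : ℕ → Finset X, ∀ v, F v = ((hfin v).toFinset).image σ := ⟨_, fun _ => rfl⟩
  -- the threshold
  have hev : ∀ᶠ v : ℕ in atTop, C * Real.exp (e + δ) ≤ Real.exp (δ * v) := by
    have h1 : Tendsto (fun v : ℕ => δ * (v : ℝ)) atTop atTop :=
      tendsto_natCast_atTop_atTop.const_mul_atTop hδ0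
    exact (Real.tendsto_exp_atTop.comp h1).eventually_ge_atTop _
  obtain ⟨v0, hv0⟩ := eventually_atTop.1 hev
  have hmain := Pool.Agent.Y314.FD.dimH_le_of_balls
    {y : X | {x | x ∈ A ∧ dist y (σ x) ≤ Real.exp (-(τ * w x))}.Infinite} F hb0 hb1 hs0.le
    (v0 := v0) (fun v hv => ?_) (fun y hy => ?_)
  · rwa [hs, ENNReal.ofReal_coe_nnreal] at hmain
  · have h1 : ((F v).card : ℝ) ≤ C * Real.exp ((e + δ) * (v + 1)) := by
      refine le_trans ?_ (hC (v + 1) (by positivity)).2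
      have h9 : (F v).card ≤ ((hfin v).toFinset).card := by
        rw [hF]; exact Finset.card_image_le
      have h10 := Set.ncard_eq_toFinset_card _ (hfin v)
      rw [← h10] at h9
      exact_mod_cast h9
    refine h1.trans ?_
    have h2 : Real.exp ((e + δ) * (v + 1)) = Real.exp ((e + δ) * v) * Real.exp (e + δ) := by
      rw [← Real.exp_add]; congr 1; ring
    have h3 : b ^ (-(s * v)) = Real.exp ((e + δ) * v) * Real.exp (δ * v) := by
      rw [← Real.exp_add, hb, ← Real.exp_mul]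
      congr 1
      rw [hδ]
      ring
    rw [h2, h3]
    calc C * (Real.exp ((e + δ) * v) * Real.exp (e + δ)) =
        Real.exp ((e + δ) * v) * (C * Real.exp (e + δ)) := by ring
      _ ≤ _ := mul_le_mul_of_nonneg_left (hv0 v hv) (Real.exp_pos _).le
  · rw [frequently_atTop]
    intro v1
    have hinf : {x | x ∈ A ∧ dist y (σ x) ≤ Real.exp (-(τ * w x))}.Infinite := hy
    obtain ⟨x, ⟨hx1, hx3⟩, hx4⟩ := (hinf.sdiff (hfin v1)).nonempty
    have hHx : (v1 : ℝ) + 1 < w x := by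
      by_contra hcon
      push Not at hcon
      exact hx4 ⟨hx1, hcon⟩
    have hx0 := hw x hx1
    obtain ⟨v, hv⟩ : ∃ v : ℕ, v = ⌊w x⌋₊ := ⟨_, rfl⟩
    have hv1 : (v : ℝ) ≤ w x := by rw [hv]; exact Nat.floor_le hx0
    have hv2 : w x < v + 1 := by rw [hv]; exact Nat.lt_floor_add_one _
    have hv3 : v1 ≤ v := by
      have : (v1 : ℝ) + 1 < v + 1 := hHx.trans hv2
      have h5 : (v1 : ℝ) < v := by linarith
      exact le_of_lt (by exact_mod_cast h5)
    refine ⟨v, hv3, σ x, ?_, ?_⟩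
    · rw [hF]
      simp only [Finset.mem_image, Set.Finite.mem_toFinset]
      exact ⟨x, ⟨hx1, hv2.le⟩, rfl⟩
    · rw [hbv]
      refine hx3.trans ?_
      apply Real.exp_le_exp.2
      have := mul_le_mul_of_nonneg_left hv1 hτ.le
      linarith

end Pool.Agent.X123.MT
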