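import Pool.Agent.X123.MT.Line2
import Pool.Agent.X123.MT.Dim

/-!
# Almost all targets
-/

set_option autoImplicit false

namespace Pool.Agent.X123.MT

open MeasureTheory

/-- Let `F_i` be finitely many metric spaces with `σ`-finite Borel measures `μ_i` such that closed
balls of radius `r ≤ 1` have `μ_i`-measure at most `C r ^ (e_i)`, `e_i > 0` (`C` depends on `i`), and
let `s_i : V → F_i` be arbitrary maps. For almost all `ξ` in the product of the `F_i` the assertion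
`A` holds for the proximity function `P ↦ ∑ e_i log⁺ (1 / |ξ_i - s_i(P)|)` of the points `P ∈ V` to
the targets `ξ_i`. -/
def AlmostAllTargets {V : Type} (A : (V → ℝ) → Prop) : Prop :=
  ∀ (ι : Type) [Fintype ι] (F : ι → Type) [∀ i, MetricSpace (F i)]
    [∀ i, MeasurableSpace (F i)] [∀ i, BorelSpace (F i)] (μ : ∀ i, Measure (F i))
    [∀ i, SigmaFinite (μ i)] (e : ι → ℝ) (s : ∀ i, V → F i), (∀ i, 0 < e i) →
    (∀ i, ∃ C : ℝ, ∀ (a : F i) (r : ℝ), 0 < r → r ≤ 1 →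
      μ i (Metric.closedBall a r) ≤ ENNReal.ofReal (C * r ^ e i)) →
      ∀ᵐ ξ ∂(Measure.pi μ), A (fun P => ∑ i, e i * max 0 (Real.log (1 / dist (ξ i) (s i P))))

theorem almostAllTargets_of {V : Type} [Countable V] (A : (V → ℝ) → Prop)
    (h : ∀ (Y : Type) [MeasurableSpace Y] (μ : Measure Y) (L : V → Y → ℝ), Generic μ L →
      ∀ᵐ y ∂μ, A (fun P => L P y)) : AlmostAllTargets A := by
  intro ι _ F _ _ _ μ _ e s he hμ
  exact h _ _ _ (generic_pi μ he hμ s)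

/-- real targets -/
theorem real_targets {V : Type} (A : (V → ℝ) → Prop) (h : AlmostAllTargets A) (m : ℕ)
    (s : Fin m → V → ℝ) :
    ∀ᵐ ξ : Fin m → ℝ, A (fun P => ∑ i, max 0 (Real.log (1 / |ξ i - s i P|))) := by
  have h1 := h (Fin m) (fun _ => ℝ) (fun _ => volume) (fun _ => 1) s (fun _ => one_pos)
    (fun _ => balls_real)
  rw [← volume_pi] at h1
  filter_upwards [h1] with ξ hξ
  have h2 : (fun P => ∑ i, max 0 (Real.log (1 / |ξ i - s i P|))) =
      (fun P => ∑ i, (1 : ℝ) * max 0 (Real.log (1 / dist (ξ i) (s i P)))) := by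
    funext P
    refine Finset.sum_congr rfl fun i _ => ?_
    rw [one_mul, Real.dist_eq]
  rw [h2]
  exact hξ

/-- the grid argument for a set of points with bounds for all `θ` -/
theorem grid {V Y : Type*} [MeasurableSpace Y] {μ : Measure Y} {L : V → Y → ℝ}
    (hL : Generic μ L) (A : Set V) (N h : V → ℝ) (hh : ∀ x, 0 ≤ h x)
    {q κ1 : ℝ} (hκ1 : 0 ≤ κ1)
    (H0 : Cnt A h 2)
    (H : ∀ κ : ℝ, 0 ≤ κ → κ ≤ κ1 → Cnt {x | x ∈ A ∧ N x < (q - κ) * h x} h (2 - κ))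
    (hκ2 : κ1 ≤ 2) :
    ∀ᵐ y ∂μ, ∀ ε : ℝ, 0 < ε → ∃ C : ℝ, ∀ x ∈ A,
      L x y ≤ max (N x - (q - 2) * h x) ((2 - κ1) * h x) + ε * h x + C := by
  have H0' : ∀ᵐ y ∂μ, ∀ ε : ℝ, 0 < ε → ∃ C : ℝ, ∀ x ∈ A, L x y ≤ (2 + ε) * h x + C :=
    hL _ _ _ (fun x _ => hh x) (by norm_num) H0
  have H1 : ∀ᵐ y ∂μ, ∀ J j : ℕ, j ≤ J → ∀ ε : ℝ, 0 < ε → ∃ C : ℝ,
      ∀ x ∈ {x | x ∈ A ∧ N x < (q - κ1 * j / J) * h x},
      L x y ≤ (2 - κ1 * j / J + ε) * h x + C := by
    rw [ae_all_iff]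
    intro J
    rw [ae_all_iff]
    intro j
    by_cases hj : j ≤ J
    · have hκ0 : 0 ≤ κ1 * j / J := by positivity
      have hκ : κ1 * j / J ≤ κ1 := by
        rcases Nat.eq_zero_or_pos J with h | h
        · subst h
          simpa using hκ1
        · have hJ : (0 : ℝ) < J := by exact_mod_cast h
          rw [div_le_iff₀ hJ]
          exact mul_le_mul_of_nonneg_left (by exact_mod_cast hj) hκ1
      have h1 := hL _ _ _ (fun x _ => hh x) (by linarith : 0 ≤ 2 - κ1 * j / J) (H _ hκ0 hκ)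
      filter_upwards [h1] with y hy _ using hy
    · exact Filter.Eventually.of_forall fun y h => absurd h hj
  filter_upwards [H0', H1] with y h0 h1
  exact line_of' (fun x => x ∈ A) N h (fun x => L x y) hh hκ1 h0 (fun J j hj ε hε => by
    obtain ⟨C, hC⟩ := h1 J j hj ε hε
    exact ⟨C, fun x hx hx2 => hC x ⟨hx, hx2⟩⟩)

end Pool.Agent.X123.MT
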