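import Mathlib

/-!
# From counting bounds to sums, and from sums to almost all points
-/

set_option autoImplicit false

namespace Pool.Agent.X123.MT

open MeasureTheory Filter Topology Finset
open scoped ENNReal

/-- a counting bound gives the convergence of the series -/
theorem summable_of_count {V : Type*} (A : Set V) (w : V → ℝ) (hw : ∀ x ∈ A, 0 ≤ w x) {e s : ℝ}
    (he : 0 ≤ e) (hes : e < s)
    (hcount : ∃ C : ℝ, ∀ t : ℝ, 0 ≤ t → {x | x ∈ A ∧ w x ≤ t}.Finite ∧
      ({x | x ∈ A ∧ w x ≤ t}.ncard : ℝ) ≤ C * Real.exp (e * t)) :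
    Summable (fun x : A => Real.exp (-(s * w x))) := by
  classical
  obtain ⟨C, hC⟩ := hcount
  have hC0 : 0 ≤ C := by
    have h1 := (hC 0 le_rfl).2
    rw [mul_zero, Real.exp_zero, mul_one] at h1
    exact (Nat.cast_nonneg _).trans h1
  obtain ⟨r, hr⟩ : ∃ r, r = Real.exp (-(s - e)) := ⟨_, rfl⟩
  have hr0 : 0 < r := by rw [hr]; exact Real.exp_pos _
  have hr1 : r < 1 := by rw [hr, Real.exp_lt_one_iff]; linarith
  refine summable_of_sum_le (c := C * Real.exp e * (1 - r)⁻¹) (fun x => (Real.exp_pos _).le)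
    fun F => ?_
  obtain ⟨N, hN⟩ : ∃ N : ℕ, ∀ x ∈ F, ⌊w (x : V)⌋₊ < N := by
    refine ⟨(F.sup fun x => ⌊w (x : V)⌋₊) + 1, fun x hx => ?_⟩
    have h1 : (fun x : A => ⌊w (x : V)⌋₊) x ≤ F.sup fun x => ⌊w (x : V)⌋₊ :=
      Finset.le_sup (f := fun x : A => ⌊w (x : V)⌋₊) hx
    exact Nat.lt_succ_of_le h1
  rw [← Finset.sum_fiberwise_of_maps_to (s := F) (t := range N) (g := fun x : A => ⌊w (x : V)⌋₊)
    (fun x hx => mem_range.2 (hN x hx))]
  have key : ∀ k ∈ range N, ∑ x ∈ F.filter (fun x : A => ⌊w (x : V)⌋₊ = k), Real.exp (-(s * w (x : V))) ≤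
      C * Real.exp e * r ^ k := by
    intro k _
    have h1 : ∀ x ∈ F.filter (fun x : A => ⌊w (x : V)⌋₊ = k), Real.exp (-(s * w (x : V))) ≤
        Real.exp (-(s * k)) := by
      intro x hx
      have h2 := (mem_filter.1 hx).2
      have h3 : (k : ℝ) ≤ w (x : V) := by
        rw [← h2]; exact Nat.floor_le (hw _ x.2)
      apply Real.exp_le_exp.2
      have : 0 < s := by linarith
      nlinarith
    have h2 : ((F.filter (fun x : A => ⌊w (x : V)⌋₊ = k)).card : ℝ) ≤
        C * Real.exp (e * (k + 1)) := by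
      have h3 := hC (k + 1) (by positivity)
      refine le_trans ?_ h3.2
      have h4 : ((F.filter (fun x : A => ⌊w (x : V)⌋₊ = k)).image (fun x : A => (x : V)) : Set V) ⊆
          {x | x ∈ A ∧ w x ≤ k + 1} := by
        intro y hy
        simp only [coe_image, Set.mem_image, mem_coe, mem_filter] at hy
        obtain ⟨x, ⟨_, hx2⟩, rfl⟩ := hy
        refine ⟨x.2, ?_⟩
        rw [← hx2]
        exact (Nat.lt_floor_add_one _).le
      have h5 := Set.ncard_le_ncard h4 h3.1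
      rw [Set.ncard_coe_finset, Finset.card_image_of_injective _ Subtype.val_injective] at h5
      exact_mod_cast h5
    calc ∑ x ∈ F.filter (fun x : A => ⌊w (x : V)⌋₊ = k), Real.exp (-(s * w (x : V))) ≤
        ∑ x ∈ F.filter (fun x : A => ⌊w (x : V)⌋₊ = k), Real.exp (-(s * k)) := Finset.sum_le_sum h1
      _ = (F.filter (fun x : A => ⌊w (x : V)⌋₊ = k)).card * Real.exp (-(s * k)) := by
          rw [Finset.sum_const, nsmul_eq_mul]
      _ ≤ C * Real.exp (e * (k + 1)) * Real.exp (-(s * k)) :=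
          mul_le_mul_of_nonneg_right h2 (Real.exp_pos _).le
      _ = C * Real.exp e * r ^ k := by
          rw [hr, ← Real.exp_nat_mul, mul_assoc, mul_assoc, ← Real.exp_add, ← Real.exp_add]
          congr 2
          ring
  calc ∑ k ∈ range N, ∑ x ∈ F.filter (fun x : A => ⌊w (x : V)⌋₊ = k), Real.exp (-(s * w (x : V))) ≤
      ∑ k ∈ range N, C * Real.exp e * r ^ k := Finset.sum_le_sum key
    _ = C * Real.exp e * ∑ k ∈ range N, r ^ k := by rw [Finset.mul_sum]
    _ ≤ C * Real.exp e * (1 - r)⁻¹ := by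
        apply mul_le_mul_of_nonneg_left _ (by positivity)
        rw [← tsum_geometric_of_lt_one hr0.le hr1]
        exact (summable_geometric_of_lt_one hr0.le hr1).sum_le_tsum _ fun i _ => by positivity

/-- the functions `L x` have exponential moments of all orders less than one, uniformly -/
def Reg {Y V : Type*} [MeasurableSpace Y] (μ : Measure Y) (L : V → Y → ℝ) : Prop :=
  (∀ x, Measurable (L x)) ∧ ∀ η : ℝ, 0 < η → η < 1 → ∃ I : ℝ≥0∞, I ≠ ⊤ ∧
    ∀ x, ∫⁻ y, ENNReal.ofReal (Real.exp ((1 - η) * L x y)) ∂μ ≤ I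

/-- **almost all targets** -/
theorem ae_bound {Y V : Type*} [MeasurableSpace Y] {μ : Measure Y} [Countable V] {L : V → Y → ℝ}
    (hL : Reg μ L) (A : Set V) (w : V → ℝ) (hw : ∀ x ∈ A, 0 ≤ w x) {e : ℝ} (he : 0 ≤ e)
    (hcount : ∀ δ : ℝ, 0 < δ → ∃ C : ℝ, ∀ t : ℝ, 0 ≤ t → {x | x ∈ A ∧ w x ≤ t}.Finite ∧
      ({x | x ∈ A ∧ w x ≤ t}.ncard : ℝ) ≤ C * Real.exp ((e + δ) * t)) :
    ∀ᵐ y ∂μ, ∀ ε : ℝ, 0 < ε → ∃ C : ℝ, ∀ x ∈ A, L x y ≤ (e + ε) * w x + C := by
  have main : ∀ ε : ℝ, 0 < ε → ∀ᵐ y ∂μ, ∃ C : ℝ, ∀ x ∈ A, L x y ≤ (e + ε) * w x + C := by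
    intro ε hε
    obtain ⟨η, hη⟩ : ∃ η, η = ε / 4 / (e + ε) := ⟨_, rfl⟩
    have hη0 : 0 < η := by rw [hη]; positivity
    have hη1 : η < 1 := by
      rw [hη, div_lt_one (by positivity)]
      linarith
    have hη2 : (1 - η) * (e + ε) = e + 3 * ε / 4 := by
      rw [hη]
      field_simp
      ring
    obtain ⟨I, hI, hint⟩ := hL.2 η hη0 hη1
    obtain ⟨s, hs⟩ : ∃ s, s = e + ε / 2 := ⟨_, rfl⟩
    have hsum := summable_of_count A w hw (e := e + ε / 4) (s := s) (by linarith) (by linarith)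
      (hcount (ε / 4) (by linarith))
    have hmeas : ∀ x : A, Measurable (fun y => ENNReal.ofReal (Real.exp ((1 - η) * L x y)) *
        ENNReal.ofReal (Real.exp (-(s * w x)))) := by
      intro x
      exact ((hL.1 x).const_mul _).exp.ennreal_ofReal.mul_const _
    have hfin : ∫⁻ y, ∑' x : A, ENNReal.ofReal (Real.exp ((1 - η) * L x y)) *
        ENNReal.ofReal (Real.exp (-(s * w x))) ∂μ ≠ ⊤ := by
      rw [lintegral_tsum fun x => (hmeas x).aemeasurable]
      have h1 : ∀ x : A, ∫⁻ y, ENNReal.ofReal (Real.exp ((1 - η) * L x y)) *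
          ENNReal.ofReal (Real.exp (-(s * w x))) ∂μ ≤
          I * ENNReal.ofReal (Real.exp (-(s * w x))) := by
        intro x
        rw [lintegral_mul_const _ ((hL.1 x).const_mul _).exp.ennreal_ofReal]
        gcongr
        exact hint x
      refine ne_top_of_le_ne_top ?_ (ENNReal.tsum_le_tsum h1)
      rw [ENNReal.tsum_mul_left]
      refine ENNReal.mul_ne_top hI ?_
      exact hsum.tsum_ofReal_ne_top
    have hae := ae_lt_top' (AEMeasurable.tsum fun x => (hmeas x).aemeasurable) hfin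
    filter_upwards [hae] with y hy
    obtain ⟨M, hM⟩ : ∃ M, M = ∑' x : A, ENNReal.ofReal (Real.exp ((1 - η) * L x y)) *
        ENNReal.ofReal (Real.exp (-(s * w x))) := ⟨_, rfl⟩
    rw [← hM] at hy
    refine ⟨max (Real.log (M.toReal + 1) / (1 - η)) 0, fun x hx => ?_⟩
    have h1 : ENNReal.ofReal (Real.exp ((1 - η) * L x y)) *
        ENNReal.ofReal (Real.exp (-(s * w x))) ≤ M := by
      rw [hM]
      exact ENNReal.le_tsum (f := fun x : A => ENNReal.ofReal (Real.exp ((1 - η) * L x y)) *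
        ENNReal.ofReal (Real.exp (-(s * w x)))) ⟨x, hx⟩
    rw [← ENNReal.ofReal_mul (Real.exp_pos _).le, ← Real.exp_add,
      ENNReal.ofReal_le_iff_le_toReal hy.ne] at h1
    have hM0 : 0 ≤ M.toReal := ENNReal.toReal_nonneg
    have h2 : (1 - η) * L x y + -(s * w x) ≤ Real.log (M.toReal + 1) := by
      rw [Real.le_log_iff_exp_le (by positivity)]
      linarith
    have h3 := hw x hx
    have h4 : 0 < 1 - η := by linarith
    have h5 : L x y ≤ (s * w x + Real.log (M.toReal + 1)) / (1 - η) := by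
      rw [le_div_iff₀ h4]
      linarith
    have h6 : s * w x / (1 - η) ≤ (e + ε) * w x := by
      rw [div_le_iff₀ h4]
      have : s ≤ (1 - η) * (e + ε) := by rw [hη2, hs]; linarith
      nlinarith
    rw [add_div] at h5
    have h7 := le_max_left (Real.log (M.toReal + 1) / (1 - η)) 0
    linarith
  have h1 : ∀ᵐ y ∂μ, ∀ n : ℕ, ∃ C : ℝ, ∀ x ∈ A, L x y ≤ (e + 1 / ((n : ℝ) + 1)) * w x + C := by
    rw [ae_all_iff]
    exact fun n => main _ (by positivity)
  filter_upwards [h1] with y hy ε hε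
  obtain ⟨n, hn⟩ := exists_nat_one_div_lt hε
  obtain ⟨C, hC⟩ := hy n
  refine ⟨C, fun x hx => (hC x hx).trans ?_⟩
  have := hw x hx
  have h2 : (e + 1 / ((n : ℝ) + 1)) * w x ≤ (e + ε) * w x :=
    mul_le_mul_of_nonneg_right (by linarith) this
  linarith

end Pool.Agent.X123.MT
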