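import Pool.Agent.X123.MT.Line2
import Pool.Agent.TH905.VF.Gen

/-!
# Points of Fermat intersections above rational points near almost every target
-/

set_option autoImplicit false

namespace Pool.Agent.X123.MT

open MeasureTheory NumberField IsDedekindDomain Height LinearAlgebra.Projectivization
open Pool.Agent.H57R3.VJ (lin)
open Pool.Agent.TH905.VF (ht ld prox E1 gen_main rep_height ht_pow key')
open Pool.Agent.Results.MP_9ec3f0_nt.HyperplaneExceptions (expo)

theorem Cnt.mono {V : Type*} {A A' : Set V} {w : V → ℝ} {e e' : ℝ} (h : Cnt A' w e)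
    (hA : A ⊆ A') (he : e ≤ e') : Cnt A w e' := by
  intro δ hδ
  obtain ⟨C, hC⟩ := h δ hδ
  refine ⟨max C 0, fun t ht => ?_⟩
  obtain ⟨h1, h2⟩ := hC t ht
  have hsub : {x | x ∈ A ∧ w x ≤ t} ⊆ {x | x ∈ A' ∧ w x ≤ t} := fun x hx => ⟨hA hx.1, hx.2⟩
  refine ⟨h1.subset hsub, ?_⟩
  have h3 : (({x | x ∈ A ∧ w x ≤ t}.ncard : ℕ) : ℝ) ≤ ({x | x ∈ A' ∧ w x ≤ t}.ncard : ℕ) := by
    exact_mod_cast Set.ncard_le_ncard hsub h1
  refine h3.trans (h2.trans ?_)
  have h4 : Real.exp ((e + δ) * t) ≤ Real.exp ((e' + δ) * t) := by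
    apply Real.exp_le_exp.2
    nlinarith
  calc C * Real.exp ((e + δ) * t) ≤ max C 0 * Real.exp ((e + δ) * t) :=
        mul_le_mul_of_nonneg_right (le_max_left _ _) (Real.exp_pos _).le
    _ ≤ max C 0 * Real.exp ((e' + δ) * t) :=
        mul_le_mul_of_nonneg_left h4 (le_max_right _ _)

/-- the grid argument with a general line -/
theorem line_gen {V : Type*} (P : V → Prop) (N h Λ : V → ℝ) {q e s : ℝ} (hh : ∀ x, 0 ≤ h x)
    (hq : 0 ≤ q) (he : 0 < e) (hs : 0 < s) (hN : ∀ x, P x → 0 ≤ N x)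
    (H0 : ∀ ε : ℝ, 0 < ε → ∃ C : ℝ, ∀ x, P x → Λ x ≤ (e + ε) * h x + C)
    (H : ∀ J j : ℕ, j ≤ J → ∀ ε : ℝ, 0 < ε → ∃ C : ℝ, ∀ x, P x →
      N x < (q - q * j / J) * h x → Λ x ≤ (e - s * (q * j / J) + ε) * h x + C) :
    ∀ ε : ℝ, 0 < ε → ∃ C : ℝ, ∀ x, P x → Λ x ≤ s * N x + (e - s * q + ε) * h x + C := by
  intro ε hε
  have h2e : 0 < 2 / e := by positivity
  obtain ⟨C, hC⟩ := line_of' P (fun x => 2 / e * (s * N x)) h (fun x => 2 / e * Λ x)
    (q := 2 / e * (s * q)) (κ1 := 2 / e * (s * q)) hh (by positivity)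
    (fun ε' hε' => by
      obtain ⟨C, hC⟩ := H0 (e / 2 * ε') (by positivity)
      refine ⟨2 / e * C, fun x hx => ?_⟩
      refine (mul_le_mul_of_nonneg_left (hC x hx) h2e.le).trans (le_of_eq ?_)
      field_simp)
    (fun J j hj ε' hε' => by
      obtain ⟨C, hC⟩ := H J j hj (e / 2 * ε') (by positivity)
      refine ⟨2 / e * C, fun x hx hx2 => ?_⟩
      have h3 : N x < (q - q * j / J) * h x := by
        have h4 : 2 / e * (s * N x) < 2 / e * (s * ((q - q * j / J) * h x)) := by
          refine lt_of_lt_of_le hx2 (le_of_eq ?_)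
          ring
        exact lt_of_mul_lt_mul_left (lt_of_mul_lt_mul_left h4 h2e.le) hs.le
      refine (mul_le_mul_of_nonneg_left (hC x hx h3) h2e.le).trans (le_of_eq ?_)
      field_simp) (2 / e * ε) (by positivity)
  refine ⟨e / 2 * C, fun x hx => ?_⟩
  have h1 := hC x hx
  have h0 := hN x hx
  have hx0 := hh x
  have h3 : max (2 / e * (s * N x) - (2 / e * (s * q) - 2) * h x)
      ((2 - 2 / e * (s * q)) * h x) = 2 / e * (s * N x) - (2 / e * (s * q) - 2) * h x := by
    apply max_eq_left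
    have : 0 ≤ 2 / e * (s * N x) := by positivity
    linarith
  rw [h3] at h1
  have h4 := mul_le_mul_of_nonneg_left h1 (by positivity : 0 ≤ e / 2)
  have h5 : e / 2 * (2 / e * Λ x) = Λ x := by field_simp
  rw [h5] at h4
  refine h4.trans (le_of_eq ?_)
  field_simp
  ring

section

variable {k : Type} [Field k] [NumberField k] {n q : ℕ}

/-- the homogeneous coordinates `(1 : x_1 : … : x_n)` -/
def aff (x : Fin n → k) : Fin (n + 1) → k := Fin.cons 1 x

theorem aff_ne (x : Fin n → k) : aff x ≠ 0 := by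
  intro h
  have := congrFun h 0
  simp [aff] at this

theorem aff_inj {x x' : Fin n → k}
    (h : Projectivization.mk k (aff x) (aff_ne x) = Projectivization.mk k (aff x') (aff_ne x')) :
    x = x' := by
  rw [Projectivization.mk_eq_mk_iff'] at h
  obtain ⟨a, ha⟩ := h
  have h0 : a * 1 = 1 := congrFun ha 0
  rw [mul_one] at h0
  subst h0
  funext j
  have h1 : (1 : k) * x' j = x j := congrFun ha j.succ
  rw [one_mul] at h1
  exact h1.symm

/-- the number `N` is `d_k(P) + h_D(P) - λ_{D, S}(P)` for a point `P` of some Fermat intersection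
above `x` -/
def Above (a : Fin q → Fin (n + 1) → k) (S : Finset (HeightOneSpectrum (𝓞 k)))
    (x : Fin n → k) (N : ℝ) : Prop :=
  (∀ i, lin (a i) (aff x) ≠ 0) ∧
  ∃ (m : ℕ) (L : Type) (_ : Field L) (_ : NumberField L) (_ : Algebra k L) (y : Fin q → L) (t : L),
    m ≠ 0 ∧ t ≠ 0 ∧ (∀ i, y i ^ m = t * algebraMap k L (lin (a i) (aff x))) ∧
      N = ld k L + q * ht k y - prox S y

open scoped Classical in
theorem cnt_E (hn : 1 ≤ n) (hq : n + 1 ≤ q) (a : Fin q → Fin (n + 1) → k)
    (ha : ∀ I : Finset (Fin q), I.card = n + 1 → LinearIndependent k (fun i : I => a i))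
    (S : Finset (HeightOneSpectrum (𝓞 k))) {θ : ℝ} (c : ℝ) (hθ : 0 ≤ θ) (A : Set (Fin n → k))
    (hA : ∀ x ∈ A, (∀ i, lin (a i) (aff x) ≠ 0) ∧
      ∃ (m : ℕ) (L : Type) (_ : Field L) (_ : NumberField L) (_ : Algebra k L) (y : Fin q → L)
        (t : L), m ≠ 0 ∧ t ≠ 0 ∧ (∀ i, y i ^ m = t * algebraMap k L (lin (a i) (aff x))) ∧
        ld k L + c < (θ * m - q) * ht k y + prox S y) :
    Cnt A (fun x => logHeight (aff x)) (expo n q θ) := by
  intro δ hδ
  obtain ⟨M, hM⟩ := gen_main k n q hn hq a ha S θ c δ hθ hδ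
  refine ⟨M, fun t ht => ?_⟩
  obtain ⟨h1, h2⟩ := hM (Real.exp t) (Real.one_le_exp ht)
  have hmaps : Set.MapsTo (fun x : Fin n → k => Projectivization.mk k (aff x) (aff_ne x))
      {x | x ∈ A ∧ logHeight (aff x) ≤ t} (E1 S a θ c (Real.exp t)) := by
    rintro x ⟨hxA, hxt⟩
    obtain ⟨hl, m, L, i1, i2, i3, y, t', hm, ht', hy, hv⟩ := hA x hxA
    obtain ⟨u, hu⟩ := Projectivization.exists_smul_eq_mk_rep k (aff x) (aff_ne x)
    have hlin : ∀ i, lin (a i) (Projectivization.mk k (aff x) (aff_ne x)).rep =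
        (u : k) * lin (a i) (aff x) := by
      intro i
      rw [← hu]
      simp only [lin, Finset.mul_sum]
      refine Finset.sum_congr rfl fun j _ => ?_
      rw [show (u • aff x) j = (u : k) * aff x j from rfl]
      ring
    have hu0 : algebraMap k L (u : k) ≠ 0 := by
      rw [Ne, map_eq_zero]
      exact u.ne_zero
    refine ⟨fun i => ?_, ?_, m, L, i1, i2, i3, y, t' / algebraMap k L u, hm, div_ne_zero ht' hu0,
      fun i => ?_, hv⟩
    · rw [hlin]
      exact mul_ne_zero u.ne_zero (hl i)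
    · rw [Projectivization.mulHeight_mk]
      rw [logHeight_eq_log_mulHeight] at hxt
      exact (Real.log_le_iff_le_exp (mulHeight_pos _)).1 hxt
    · rw [hy, hlin, map_mul]
      field_simp
  have hinj : Set.InjOn (fun x : Fin n → k => Projectivization.mk k (aff x) (aff_ne x))
      {x | x ∈ A ∧ logHeight (aff x) ≤ t} := fun x _ x' _ h => aff_inj h
  refine ⟨Set.Finite.of_injOn hmaps hinj h1, ?_⟩
  have h3 := Set.ncard_le_ncard_of_injOn _ hmaps hinj h1
  refine le_trans (by exact_mod_cast h3) (h2.trans (le_of_eq ?_))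
  rw [← Real.exp_mul]
  congr 2
  ring

/-- the two heights -/
theorem height_le (hq : n + 1 ≤ q) (a : Fin q → Fin (n + 1) → k)
    (ha : ∀ I : Finset (Fin q), I.card = n + 1 → LinearIndependent k (fun i : I => a i)) :
    ∃ C : ℝ, ∀ x : Fin (n + 1) → k, logHeight x ≤ C + logHeight (fun i => lin (a i) x) ∧
      logHeight (fun i => lin (a i) x) ≤ C + logHeight x := by
  classical
  have hne : Nonempty (Fin (n + 1)) := ⟨0⟩
  have hneq : Nonempty (Fin q) := ⟨⟨0, by omega⟩⟩
  obtain ⟨f, hf⟩ : ∃ f : (Fin (n + 1) → k) →ₗ[k] (Fin q → k), ∀ x i, f x i = lin (a i) x := by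
    refine ⟨Matrix.mulVecLin (Matrix.of a), fun x i => ?_⟩
    rw [Matrix.mulVecLin_apply]
    rfl
  have hinj : Function.Injective f := by
    rw [injective_iff_map_eq_zero]
    intro x hx
    obtain ⟨I, hI⟩ : ∃ I : Finset (Fin q), I.card = n + 1 := by
      obtain ⟨I, -, hI⟩ := Finset.exists_subset_card_eq (s := (Finset.univ : Finset (Fin q)))
        (n := n + 1) (by rw [Finset.card_univ, Fintype.card_fin]; exact hq)
      exact ⟨I, hI⟩
    have h1 := ha I hI
    have h2 : ∀ i : I, ∑ j, a i j * x j = 0 := by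
      intro i
      have := congrFun hx i
      rw [hf] at this
      exact this
    have h3 : Submodule.span k (Set.range fun i : I => a i) = ⊤ := by
      apply h1.span_eq_top_of_card_eq_finrank'
      rw [Fintype.card_coe, hI, Module.finrank_fintype_fun_eq_card, Fintype.card_fin]
    have h4 : ∀ v : Fin (n + 1) → k, ∑ j, v j * x j = 0 := by
      intro v
      have hv : v ∈ Submodule.span k (Set.range fun i : I => a i) := by
        rw [h3]; exact Submodule.mem_top
      refine Submodule.span_induction ?_ ?_ ?_ ?_ hv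
      · rintro _ ⟨i, rfl⟩
        exact h2 i
      · simp
      · intro v w _ _ h h'
        simp only [Pi.add_apply, add_mul, Finset.sum_add_distrib, h, h', add_zero]
      · intro c v _ h
        simp only [Pi.smul_apply, smul_eq_mul, mul_assoc, ← Finset.mul_sum, h, mul_zero]
    funext j
    have h5 := h4 (Pi.single j 1)
    simpa [Pi.single_apply] using h5
  obtain ⟨g, hg⟩ := LinearMap.exists_leftInverse_of_injective f (LinearMap.ker_eq_bot.2 hinj)
  have hg' : ∀ x, g (fun i => lin (a i) x) = x := by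
    intro x
    have h1 : (fun i => lin (a i) x) = f x := by
      funext i
      rw [hf]
    rw [h1]
    exact LinearMap.congr_fun hg x
  have hgm : ∀ z : Fin q → k, g z = fun j => ∑ i, LinearMap.toMatrix' g j i * z i := by
    intro z
    conv_lhs => rw [← Matrix.toLin'_toMatrix' g]
    rfl
  refine ⟨max (totalWeight k * Real.log (Nat.card (Fin q)) +
      logHeight (fun p : Fin (n + 1) × Fin q => LinearMap.toMatrix' g p.1 p.2))
    (totalWeight k * Real.log (Nat.card (Fin (n + 1))) +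
      logHeight (fun p : Fin q × Fin (n + 1) => a p.1 p.2)), fun x => ⟨?_, ?_⟩⟩
  · have h1 := logHeight_linearMap_apply_le
      (fun p : Fin (n + 1) × Fin q => LinearMap.toMatrix' g p.1 p.2) (fun i => lin (a i) x)
    have h2 : (fun j => ∑ i, LinearMap.toMatrix' g j i * lin (a i) x) = x := by
      rw [← hgm, hg']
    rw [h2] at h1
    exact h1.trans (add_le_add_left (le_max_left _ _) _)
  · have h1 := logHeight_linearMap_apply_le (fun p : Fin q × Fin (n + 1) => a p.1 p.2) x
    exact h1.trans (add_le_add_left (le_max_right _ _) _)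

end

end Pool.Agent.X123.MT
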