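import Pool.Agent.X123.MT.Main
import Pool.Agent.W221.ExcUp
import Pool.Agent.W221.SelE3

/-!
# Points of the line over a number field near almost all targets
-/

set_option autoImplicit false

namespace Pool.Agent.X123.MT

open MeasureTheory Filter Topology NumberField IsDedekindDomain
open scoped ENNReal

/-- the counting bound with the exponent `e` -/
def Cnt {V : Type*} (A : Set V) (w : V → ℝ) (e : ℝ) : Prop :=
  ∀ δ : ℝ, 0 < δ → ∃ C : ℝ, ∀ t : ℝ, 0 ≤ t → {x | x ∈ A ∧ w x ≤ t}.Finite ∧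
    ({x | x ∈ A ∧ w x ≤ t}.ncard : ℝ) ≤ C * Real.exp ((e + δ) * t)

/-- sets of points with the exponent `e` are at a large distance from almost all targets -/
def Generic {Y V : Type*} [MeasurableSpace Y] (μ : Measure Y) (L : V → Y → ℝ) : Prop :=
  ∀ (A : Set V) (w : V → ℝ) (e : ℝ), (∀ x ∈ A, 0 ≤ w x) → 0 ≤ e → Cnt A w e →
    ∀ᵐ y ∂μ, ∀ ε : ℝ, 0 < ε → ∃ C : ℝ, ∀ x ∈ A, L x y ≤ (e + ε) * w x + C

theorem generic_pi {ι V : Type*} [Fintype ι] [Countable V] {F : ι → Type*}
    [∀ i, MetricSpace (F i)] [∀ i, MeasurableSpace (F i)] [∀ i, BorelSpace (F i)]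
    (μ : ∀ i, Measure (F i)) [∀ i, SigmaFinite (μ i)] {n : ι → ℝ} (hn : ∀ i, 0 < n i)
    (hμ : ∀ i, Balls (μ i) (n i)) (σ : ∀ i, V → F i) :
    Generic (Measure.pi μ) (fun x y => ∑ i, n i * max 0 (Real.log (1 / dist (y i) (σ i x)))) :=
  fun A w _ hw he hc => ae_pi μ hn hμ σ A w hw he hc

open Classical in
theorem generic_mixed (K : Type) [Field K] [NumberField K] :
    Generic (volume : Measure (mixedEmbedding.mixedSpace K)) (fun (x : K) y => lamInf y x) :=
  fun A w _ hw he hc => ae_mixed A w hw he hc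

theorem line_of {V : Type*} (P : V → Prop) (N h Λ : V → ℝ) {q κ1 c1 : ℝ} (hh : ∀ x, 0 ≤ h x)
    (hκ1 : 0 ≤ κ1) (hN : ∀ x, P x → N x < q * h x + c1)
    (H : ∀ J j : ℕ, j ≤ J → ∀ ε : ℝ, 0 < ε → ∃ C : ℝ, ∀ x, P x →
      N x < (q - κ1 * j / J) * h x + c1 → Λ x ≤ (2 - κ1 * j / J + ε) * h x + C) :
    ∀ ε : ℝ, 0 < ε → ∃ C : ℝ, ∀ x, P x →
      Λ x ≤ max (N x - (q - 2) * h x) ((2 - κ1) * h x) + ε * h x + C := by
  intro ε hε
  obtain ⟨J, hJ⟩ := exists_nat_gt (κ1 / (ε / 2))
  have hJ0 : (0 : ℝ) < J := lt_of_le_of_lt (by positivity) hJ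
  have hJ1 : 0 < J := by exact_mod_cast hJ0
  have hJ2 : κ1 / J ≤ ε / 2 := by
    rw [div_le_iff₀ hJ0]
    rw [div_lt_iff₀ (by positivity)] at hJ
    linarith
  choose! C hC using fun (j : ℕ) (hj : j ≤ J) => H J j hj (ε / 2) (by positivity)
  obtain ⟨D, hD⟩ : ∃ D : ℝ, ∀ j ≤ J, C j ≤ D := by
    refine ⟨∑ j ∈ Finset.range (J + 1), |C j|, fun j hj => ?_⟩
    refine (le_abs_self _).trans ?_
    exact Finset.single_le_sum (f := fun j => |C j|) (fun i _ => abs_nonneg _)
      (Finset.mem_range.2 (Nat.lt_succ_of_le hj))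
  refine ⟨D + |c1|, fun x hx => ?_⟩
  have hx0 := hh x
  have hc1 := neg_abs_le c1
  have hc2 := abs_nonneg c1
  have hdec : ∀ j : ℕ, j ≤ J → Decidable (N x < (q - κ1 * j / J) * h x + c1) :=
    fun _ _ => Classical.dec _
  by_cases hlast : N x < (q - κ1 * J / J) * h x + c1
  · have h1 := hC J le_rfl x hx hlast
    have h2 := hD J le_rfl
    have e1 : κ1 * (J : ℝ) / J = κ1 := by field_simp
    rw [e1] at h1
    have h3 := le_max_right (N x - (q - 2) * h x) ((2 - κ1) * h x)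
    have h4 : 0 ≤ ε / 2 * h x := by positivity
    nlinarith
  · have hex : ∃ j : ℕ, ¬ N x < (q - κ1 * j / J) * h x + c1 := ⟨J, hlast⟩
    classical
    have hm1 := Nat.find_spec hex
    have hm2 : ∀ j < Nat.find hex, N x < (q - κ1 * j / J) * h x + c1 := fun j hj => by
      have := Nat.find_min hex hj
      push Not at this
      exact this
    have hm3 : Nat.find hex ≤ J := Nat.find_min' hex hlast
    obtain ⟨m, hm⟩ : ∃ m, m = Nat.find hex := ⟨_, rfl⟩
    rw [← hm] at hm1 hm2 hm3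
    cases m with
    | zero =>
      exfalso
      apply hm1
      have := hN x hx
      simpa using this
    | succ m =>
      have h1 := hC m (by omega) x hx (hm2 m (Nat.lt_succ_self m))
      have h2 := hD m (by omega)
      push Not at hm1
      push_cast at hm1
      have e1 : κ1 * ((m : ℝ) + 1) / J = κ1 * m / J + κ1 / J := by ring
      rw [e1] at hm1
      have h3 := le_max_left (N x - (q - 2) * h x) ((2 - κ1) * h x)
      have h4 : κ1 / J * h x ≤ ε / 2 * h x := mul_le_mul_of_nonneg_right hJ2 hx0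
      nlinarith

section K

variable {K : Type} [Field K] [NumberField K]

open Pool.Agent.W221.Exc (height counting exceptional height_mul counting_mul)

theorem height_nonneg (x : K) : 0 ≤ height x := by
  have hd : (0 : ℝ) < (Module.finrank ℚ K : ℝ) := by exact_mod_cast Module.finrank_pos
  have h1 := height_mul x
  rw [Pool.Agent.W221.Exc.hr_aff_eq] at h1
  have h2 : 0 ≤ Real.log (Height.mulHeight₁ x) := Real.log_nonneg (Height.one_le_mulHeight₁ x)
  rw [← h1] at h2
  exact nonneg_of_mul_nonneg_right (by linarith) hd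

theorem counting_lt (T : Set (HeightOneSpectrum (RingOfIntegers K))) {q : ℕ} (hq : 2 ≤ q)
    (α : Fin q → K × K) (hα0 : ∀ i, α i ≠ 0) : ∃ c : ℝ, ∀ x : K,
      (∀ l, x * (α l).2 - 1 * (α l).1 ≠ 0) → counting T α x < q * height x + c := by
  have hd : (0 : ℝ) < (Module.finrank ℚ K : ℝ) := by exact_mod_cast Module.finrank_pos
  obtain ⟨M, hM⟩ : ∃ M, M = q * Pool.Agent.H691R3.lossK K +
      ∑ l, Pool.Agent.H691R3.hr (α l) := ⟨_, rfl⟩
  refine ⟨M / Module.finrank ℚ K + 1, fun x hx => ?_⟩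
  have h1 := Pool.Agent.W221.Exc.NTc_le T α hα0 ⟨0, by omega⟩ ⟨1, by omega⟩
    (by simp [Fin.ext_iff]) ∅ ∅ x hx (fun _ => 0) (fun _ => 0) (by simp) (by simp)
  rw [← counting_mul, ← height_mul] at h1
  simp only [Finset.sum_empty, sub_zero] at h1
  have h2 : (Module.finrank ℚ K : ℝ) * counting T α x ≤
      (Module.finrank ℚ K : ℝ) * (q * height x) + M := by
    rw [hM]
    refine h1.trans (le_of_eq ?_)
    ring
  have h3 : counting T α x ≤ q * height x + M / Module.finrank ℚ K := by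
    rw [← sub_nonneg] at h2 ⊢
    have e : (Module.finrank ℚ K : ℝ) * (q * height x + M / Module.finrank ℚ K -
      counting T α x) = (Module.finrank ℚ K : ℝ) * (q * height x) + M -
        (Module.finrank ℚ K : ℝ) * counting T α x := by
      field_simp
    rw [← e] at h2
    exact nonneg_of_mul_nonneg_right (by linarith) hd
  linarith

/-- the count of the exceptional points -/
theorem cnt_exc (T : Set (HeightOneSpectrum (RingOfIntegers K))) (hT : T.Finite) {q : ℕ}
    (hq : 2 ≤ q) (α : Fin q → K × K) (hα0 : ∀ i, α i ≠ 0)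
    (hα : ∀ i j, i ≠ j → (α i).1 * (α j).2 - (α i).2 * (α j).1 ≠ 0)
    {κ e : ℝ} (c : ℝ) (hκ0 : 0 ≤ κ) (he0 : 0 ≤ e)
    (hsel : Pool.Agent.H691R3.Sel.{0} q κ e) :
    Cnt {x : K | (∀ l, x * (α l).2 - 1 * (α l).1 ≠ 0) ∧
      counting T α x < ((q : ℝ) - κ) * height x + c} height (Module.finrank ℚ K * e) := by
  intro δ hδ
  obtain ⟨C, hC⟩ := Pool.Agent.W221.Exc.upper T hT hq α hα0 hα κ c δ e hκ0 hδ he0 hsel
  refine ⟨C, fun t ht => ?_⟩
  have h1 := hC (Real.exp t) (Real.one_le_exp ht)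
  have e1 : {x | x ∈ {x : K | (∀ l, x * (α l).2 - 1 * (α l).1 ≠ 0) ∧
      counting T α x < ((q : ℝ) - κ) * height x + c} ∧ height x ≤ t} =
      exceptional T α κ c (Real.exp t) := by
    ext x
    simp only [exceptional, Set.mem_ofPred_eq, Real.exp_le_exp]
    tauto
  rw [e1, ← Real.exp_mul] at *
  rw [mul_comm t] at h1
  exact h1

end K

end Pool.Agent.X123.MT
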