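import Pool.Agent.X123.MT.Line

/-!
# A variant of the grid argument, and the number of the rationals of bounded height
-/

set_option autoImplicit false

namespace Pool.Agent.X123.MT

open Filter Topology

theorem line_of' {V : Type*} (P : V → Prop) (N h Λ : V → ℝ) {q κ1 : ℝ} (hh : ∀ x, 0 ≤ h x)
    (hκ1 : 0 ≤ κ1) (H0 : ∀ ε : ℝ, 0 < ε → ∃ C : ℝ, ∀ x, P x → Λ x ≤ (2 + ε) * h x + C)
    (H : ∀ J j : ℕ, j ≤ J → ∀ ε : ℝ, 0 < ε → ∃ C : ℝ, ∀ x, P x →
      N x < (q - κ1 * j / J) * h x → Λ x ≤ (2 - κ1 * j / J + ε) * h x + C) :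
    ∀ ε : ℝ, 0 < ε → ∃ C : ℝ, ∀ x, P x →
      Λ x ≤ max (N x - (q - 2) * h x) ((2 - κ1) * h x) + ε * h x + C := by
  intro ε hε
  obtain ⟨C0, hC0⟩ := H0 ε hε
  obtain ⟨C1, hC1⟩ := line_of (fun x => P x ∧ N x < q * h x) N h Λ (c1 := 0) hh hκ1
    (fun x hx => by rw [add_zero]; exact hx.2)
    (fun J j hj ε' hε' => by
      obtain ⟨C, hC⟩ := H J j hj ε' hε'
      exact ⟨C, fun x hx1 hx2 => hC x hx1.1 (by rwa [add_zero] at hx2)⟩) ε hε
  refine ⟨max C0 C1, fun x hx => ?_⟩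
  by_cases hN : N x < q * h x
  · have h1 := hC1 x ⟨hx, hN⟩
    have h2 := le_max_right C0 C1
    linarith
  · push Not at hN
    have h1 := hC0 x hx
    have h2 := le_max_left C0 C1
    have h3 := le_max_left (N x - (q - 2) * h x) ((2 - κ1) * h x)
    have h4 : (2 + ε) * h x = q * h x - (q - 2) * h x + ε * h x := by ring
    linarith

/-- the rational numbers of bounded height -/
theorem cnt_rat : Cnt (Set.univ : Set ℚ)
    (fun x => Real.log ((max x.num.natAbs x.den : ℕ) : ℝ)) 2 := by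
  intro δ hδ
  refine ⟨3, fun t ht => ?_⟩
  obtain ⟨N, hN⟩ : ∃ N : ℕ, N = ⌊Real.exp t⌋₊ := ⟨_, rfl⟩
  have hN1 : 1 ≤ N := by rw [hN]; exact Nat.le_floor (by exact_mod_cast Real.one_le_exp ht)
  have hNe : (N : ℝ) ≤ Real.exp t := by rw [hN]; exact Nat.floor_le (Real.exp_pos _).le
  have hmem : ∀ x : ℚ, Real.log ((max x.num.natAbs x.den : ℕ) : ℝ) ≤ t →
      max x.num.natAbs x.den ≤ N := by
    intro x hx
    rw [hN]
    apply Nat.le_floor
    have h0 : (0 : ℝ) < ((max x.num.natAbs x.den : ℕ) : ℝ) := by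
      have : 0 < max x.num.natAbs x.den := lt_of_lt_of_le x.den_pos (le_max_right _ _)
      exact_mod_cast this
    exact (Real.log_le_iff_le_exp h0).1 hx
  have hmaps : Set.MapsTo (fun x : ℚ => (x.num, x.den))
      {x | x ∈ (Set.univ : Set ℚ) ∧ Real.log ((max x.num.natAbs x.den : ℕ) : ℝ) ≤ t}
      (Finset.Icc (-(N : ℤ)) N ×ˢ Finset.Icc 1 N : Finset (ℤ × ℕ)) := by
    rintro x ⟨-, hx⟩
    have h1 := hmem x hx
    have h2 := (le_max_left _ _).trans h1
    have h3 := (le_max_right _ _).trans h1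
    have h4 := x.den_pos
    simp only [Finset.coe_product, Finset.coe_Icc, Set.mem_prod, Set.mem_Icc]
    omega
  have hinj : Set.InjOn (fun x : ℚ => (x.num, x.den))
      {x | x ∈ (Set.univ : Set ℚ) ∧ Real.log ((max x.num.natAbs x.den : ℕ) : ℝ) ≤ t} := by
    intro x _ x' _ h
    simp only [Prod.mk.injEq] at h
    exact Rat.ext h.1 h.2
  have hfin := Finset.finite_toSet (Finset.Icc (-(N : ℤ)) N ×ˢ Finset.Icc 1 N : Finset (ℤ × ℕ))
  refine ⟨Set.Finite.of_injOn hmaps hinj hfin, ?_⟩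
  have h2 := Set.ncard_le_ncard_of_injOn _ hmaps hinj hfin
  rw [Set.ncard_coe_finset, Finset.card_product, Int.card_Icc, Nat.card_Icc] at h2
  have h3 : ((N : ℤ) + 1 - -(N : ℤ)).toNat * (N + 1 - 1) = (2 * N + 1) * N := by
    congr 1
    omega
  rw [h3] at h2
  have h4 : (({x | x ∈ (Set.univ : Set ℚ) ∧
      Real.log ((max x.num.natAbs x.den : ℕ) : ℝ) ≤ t}.ncard : ℕ) : ℝ) ≤ (2 * N + 1) * N := by
    exact_mod_cast h2
  refine h4.trans ?_
  have h5 : (1 : ℝ) ≤ Real.exp t := Real.one_le_exp ht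
  have hN0 : (0 : ℝ) ≤ N := Nat.cast_nonneg N
  calc (2 * (N : ℝ) + 1) * N ≤ (2 * Real.exp t + 1) * Real.exp t := by
        apply mul_le_mul (by linarith) hNe hN0 (by positivity)
    _ ≤ 3 * Real.exp (2 * t) := by
        have : Real.exp (2 * t) = Real.exp t * Real.exp t := by rw [← Real.exp_add]; ring_nf
        rw [this]
        nlinarith
    _ ≤ 3 * Real.exp ((2 + δ) * t) := by
        apply mul_le_mul_of_nonneg_left _ (by norm_num)
        apply Real.exp_le_exp.2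
        nlinarith

open MeasureTheory in
/-- one target -/
theorem generic_one {V F : Type*} [Countable V] [MetricSpace F] [MeasurableSpace F] [BorelSpace F]
    (μ : Measure F) [SigmaFinite μ] {n : ℝ} (hn : 0 < n) (hμ : Balls μ n) (σ : V → F) :
    Generic μ (fun x y => n * max 0 (Real.log (1 / dist y (σ x)))) := by
  intro A w e hw he hc
  have hU : (⋃ k : ℕ, spanningSets μ k) = Set.univ := iUnion_spanningSets μ
  rw [← Measure.restrict_univ (μ := μ), ← hU, ae_restrict_iUnion_iff]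
  intro k
  have h1 : IsFiniteMeasure (μ.restrict (spanningSets μ k)) := ⟨by
    rw [Measure.restrict_apply_univ]; exact measure_spanningSets_lt_top _ _⟩
  exact ae_bound (reg_one hn (hμ.restrict _) σ) A w hw he hc

end Pool.Agent.X123.MT
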