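import Pool.Agent.X123.MT.Pi

/-!
# Almost all targets at finitely many places
-/

set_option autoImplicit false

namespace Pool.Agent.X123.MT

open MeasureTheory Filter Topology NumberField
open scoped ENNReal

theorem Balls.singleton {F : Type*} [MetricSpace F] [MeasurableSpace F] {μ : Measure F} {n : ℝ}
    (hn : 0 < n) (h : Balls μ n) (a : F) : μ {a} = 0 := by
  obtain ⟨C, hC⟩ := h
  have h1 : Tendsto (fun k : ℕ => C * (1 / ((k : ℝ) + 1)) ^ n) atTop (𝓝 (C * 0 ^ n)) :=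
    (tendsto_one_div_add_atTop_nhds_zero_nat.rpow_const (Or.inr hn.le)).const_mul C
  rw [Real.zero_rpow hn.ne', mul_zero] at h1
  have h2 : Tendsto (fun k : ℕ => ENNReal.ofReal (C * (1 / ((k : ℝ) + 1)) ^ n)) atTop (𝓝 0) := by
    rw [← ENNReal.ofReal_zero]
    exact (ENNReal.continuous_ofReal.tendsto 0).comp h1
  refine le_antisymm (ge_of_tendsto' h2 fun k => ?_) zero_le
  refine le_trans (measure_mono ?_) (hC a (1 / ((k : ℝ) + 1)) (by positivity) ?_)
  · exact Set.singleton_subset_iff.2 (Metric.mem_closedBall_self (by positivity))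
  · rw [div_le_one (by positivity)]
    have : (0 : ℝ) ≤ k := Nat.cast_nonneg k
    linarith

section Pi

variable {ι V : Type*} [Fintype ι] [Countable V] {F : ι → Type*} [∀ i, MetricSpace (F i)]
  [∀ i, MeasurableSpace (F i)] [∀ i, BorelSpace (F i)] (μ : ∀ i, Measure (F i))
  [∀ i, SigmaFinite (μ i)]

/-- a property which holds almost everywhere for all restrictions to products of sets of finite
measure -/
theorem ae_of_restrict {P : (∀ i, F i) → Prop} (h : ∀ s : ∀ i, Set (F i),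
    (∀ i, μ i (s i) < ⊤) → ∀ᵐ y ∂(Measure.pi fun i => (μ i).restrict (s i)), P y) :
    ∀ᵐ y ∂(Measure.pi μ), P y := by
  have hU : (⋃ k : ℕ, Set.pi Set.univ fun i => spanningSets (μ i) k) = Set.univ := by
    rw [Set.eq_univ_iff_forall]
    intro y
    have h1 : ∀ i, ∃ k : ℕ, y i ∈ spanningSets (μ i) k := fun i => by
      have h2 := iUnion_spanningSets (μ i)
      have h3 : y i ∈ ⋃ k, spanningSets (μ i) k := by rw [h2]; exact Set.mem_univ _
      exact Set.mem_iUnion.1 h3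
    choose k hk using h1
    refine Set.mem_iUnion.2 ⟨Finset.univ.sup k, fun i _ => ?_⟩
    exact monotone_spanningSets (μ i) (Finset.le_sup (Finset.mem_univ i)) (hk i)
  rw [← Measure.restrict_univ (μ := Measure.pi μ), ← hU, ae_restrict_iUnion_iff]
  intro k
  rw [Measure.restrict_pi_pi]
  exact h _ fun i => measure_spanningSets_lt_top _ _

theorem ae_pi {n : ι → ℝ} (hn : ∀ i, 0 < n i) (hμ : ∀ i, Balls (μ i) (n i))
    (σ : ∀ i, V → F i) (A : Set V) (w : V → ℝ) (hw : ∀ x ∈ A, 0 ≤ w x) {e : ℝ} (he : 0 ≤ e)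
    (hcount : ∀ δ : ℝ, 0 < δ → ∃ C : ℝ, ∀ t : ℝ, 0 ≤ t → {x | x ∈ A ∧ w x ≤ t}.Finite ∧
      ({x | x ∈ A ∧ w x ≤ t}.ncard : ℝ) ≤ C * Real.exp ((e + δ) * t)) :
    ∀ᵐ y ∂(Measure.pi μ), ∀ ε : ℝ, 0 < ε → ∃ C : ℝ, ∀ x ∈ A,
      ∑ i, n i * max 0 (Real.log (1 / dist (y i) (σ i x))) ≤ (e + ε) * w x + C := by
  refine ae_of_restrict μ fun s hs => ?_
  haveI : ∀ i, IsFiniteMeasure ((μ i).restrict (s i)) := fun i => ⟨by
    rw [Measure.restrict_apply_univ]; exact hs i⟩
  exact ae_bound (reg_pi fun i => reg_one (hn i) ((hμ i).restrict (s i)) (σ i)) A w hw he hcount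

theorem ae_ne {n : ι → ℝ} (hn : ∀ i, 0 < n i) (hμ : ∀ i, Balls (μ i) (n i))
    (σ : ∀ i, V → F i) : ∀ᵐ y ∂(Measure.pi μ), ∀ i x, y i ≠ σ i x := by
  rw [ae_all_iff]
  intro i
  rw [ae_all_iff]
  intro x
  have h1 := Measure.quasiMeasurePreserving_eval μ i
  have h2 : ∀ᵐ z ∂(μ i), z ≠ σ i x := by
    rw [ae_iff]
    simpa using (hμ i).singleton (hn i) (σ i x)
  exact h1.ae h2

end Pi

theorem balls_real : Balls (volume : Measure ℝ) 1 := by
  refine ⟨2, fun a r h0 _ => ?_⟩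
  rw [Real.volume_closedBall, Real.rpow_one]

theorem balls_complex : Balls (volume : Measure ℂ) 2 := by
  refine ⟨Real.pi, fun a r h0 _ => ?_⟩
  rw [Complex.volume_closedBall, ENNReal.ofReal_mul Real.pi_pos.le, mul_comm]
  apply le_of_eq
  congr 1
  · rw [← ENNReal.ofReal_coe_nnreal, NNReal.coe_real_pi]
  · rw [← ENNReal.ofReal_pow h0.le]
    congr 1
    norm_cast

section Mixed

open Classical

/-- the weighted sum of the logarithms of the inverse distances at all archimedean places -/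
noncomputable def lamInf {K : Type} [Field K] [NumberField K] (y : mixedEmbedding.mixedSpace K)
    (x : K) : ℝ :=
  ∑ w, max 0 (Real.log (1 / |y.1 w - (mixedEmbedding K x).1 w|)) +
    ∑ w, 2 * max 0 (Real.log (1 / ‖y.2 w - (mixedEmbedding K x).2 w‖))

theorem countable_K (K : Type) [Field K] [NumberField K] : Countable K :=
  (Module.finBasis ℚ K).equivFun.injective.countable

theorem ae_pi_prod {ι κ V : Type*} [Fintype ι] [Fintype κ] [Countable V] {F : ι → Type*}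
    {G : κ → Type*} [∀ i, MetricSpace (F i)] [∀ i, MeasurableSpace (F i)] [∀ i, BorelSpace (F i)]
    [∀ i, MetricSpace (G i)] [∀ i, MeasurableSpace (G i)] [∀ i, BorelSpace (G i)]
    (μ : ∀ i, Measure (F i)) (ν : ∀ i, Measure (G i)) [∀ i, SigmaFinite (μ i)]
    [∀ i, SigmaFinite (ν i)] {n : ι → ℝ} {m : κ → ℝ} (hn : ∀ i, 0 < n i) (hm : ∀ i, 0 < m i)
    (hμ : ∀ i, Balls (μ i) (n i)) (hν : ∀ i, Balls (ν i) (m i))
    (σ : ∀ i, V → F i) (τ : ∀ i, V → G i) (A : Set V) (w : V → ℝ) (hw : ∀ x ∈ A, 0 ≤ w x) {e : ℝ}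
    (he : 0 ≤ e)
    (hcount : ∀ δ : ℝ, 0 < δ → ∃ C : ℝ, ∀ t : ℝ, 0 ≤ t → {x | x ∈ A ∧ w x ≤ t}.Finite ∧
      ({x | x ∈ A ∧ w x ≤ t}.ncard : ℝ) ≤ C * Real.exp ((e + δ) * t)) :
    ∀ᵐ y ∂((Measure.pi μ).prod (Measure.pi ν)), ∀ ε : ℝ, 0 < ε → ∃ C : ℝ, ∀ x ∈ A,
      ∑ i, n i * max 0 (Real.log (1 / dist (y.1 i) (σ i x))) +
        ∑ i, m i * max 0 (Real.log (1 / dist (y.2 i) (τ i x))) ≤ (e + ε) * w x + C := by
  obtain ⟨S, hS⟩ : ∃ S : ℕ → Set (∀ i, F i),
      ∀ k, S k = Set.pi Set.univ fun i => spanningSets (μ i) k := ⟨_, fun _ => rfl⟩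
  obtain ⟨T, hT⟩ : ∃ T : ℕ → Set (∀ i, G i),
      ∀ k, T k = Set.pi Set.univ fun i => spanningSets (ν i) k := ⟨_, fun _ => rfl⟩
  have hU : (⋃ k : ℕ, S k ×ˢ T k) = Set.univ := by
    rw [Set.eq_univ_iff_forall]
    rintro ⟨y, z⟩
    have h1 : ∀ i, ∃ k : ℕ, y i ∈ spanningSets (μ i) k := fun i => by
      have h3 : y i ∈ ⋃ k, spanningSets (μ i) k := by
        rw [iUnion_spanningSets]; exact Set.mem_univ _
      exact Set.mem_iUnion.1 h3
    have h2 : ∀ i, ∃ k : ℕ, z i ∈ spanningSets (ν i) k := fun i => by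
      have h3 : z i ∈ ⋃ k, spanningSets (ν i) k := by
        rw [iUnion_spanningSets]; exact Set.mem_univ _
      exact Set.mem_iUnion.1 h3
    choose k hk using h1
    choose l hl using h2
    refine Set.mem_iUnion.2 ⟨max (Finset.univ.sup k) (Finset.univ.sup l), ?_, ?_⟩
    · rw [hS]
      exact fun i _ => monotone_spanningSets (μ i)
        ((Finset.le_sup (Finset.mem_univ i)).trans (le_max_left _ _)) (hk i)
    · rw [hT]
      exact fun i _ => monotone_spanningSets (ν i)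
        ((Finset.le_sup (Finset.mem_univ i)).trans (le_max_right _ _)) (hl i)
  rw [← Measure.restrict_univ (μ := (Measure.pi μ).prod (Measure.pi ν)), ← hU,
    ae_restrict_iUnion_iff]
  intro k
  rw [← Measure.prod_restrict, hS, hT, Measure.restrict_pi_pi, Measure.restrict_pi_pi]
  haveI h1 : ∀ i, IsFiniteMeasure ((μ i).restrict (spanningSets (μ i) k)) := fun i => ⟨by
    rw [Measure.restrict_apply_univ]; exact measure_spanningSets_lt_top _ _⟩
  haveI h2 : ∀ i, IsFiniteMeasure ((ν i).restrict (spanningSets (ν i) k)) := fun i => ⟨by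
    rw [Measure.restrict_apply_univ]; exact measure_spanningSets_lt_top _ _⟩
  exact ae_bound (reg_prod (reg_pi fun i => reg_one (hn i) ((hμ i).restrict _) (σ i))
    (reg_pi fun i => reg_one (hm i) ((hν i).restrict _) (τ i))) A w hw he hcount

theorem ae_mixed {K : Type} [Field K] [NumberField K] (A : Set K) (w : K → ℝ)
    (hw : ∀ x ∈ A, 0 ≤ w x) {e : ℝ} (he : 0 ≤ e)
    (hcount : ∀ δ : ℝ, 0 < δ → ∃ C : ℝ, ∀ t : ℝ, 0 ≤ t → {x | x ∈ A ∧ w x ≤ t}.Finite ∧
      ({x | x ∈ A ∧ w x ≤ t}.ncard : ℝ) ≤ C * Real.exp ((e + δ) * t)) :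
    ∀ᵐ y : mixedEmbedding.mixedSpace K, ∀ ε : ℝ, 0 < ε → ∃ C : ℝ, ∀ x ∈ A,
      lamInf y x ≤ (e + ε) * w x + C := by
  have := countable_K K
  have h := ae_pi_prod (V := K) (fun _ : {v : InfinitePlace K // v.IsReal} => (volume : Measure ℝ))
    (fun _ : {v : InfinitePlace K // v.IsComplex} => (volume : Measure ℂ))
    (n := fun _ => 1) (m := fun _ => 2) (fun _ => one_pos) (fun _ => two_pos)
    (fun _ => balls_real) (fun _ => balls_complex)
    (fun i x => (mixedEmbedding K x).1 i) (fun i x => (mixedEmbedding K x).2 i) A w hw he hcount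
  filter_upwards [h] with y hy ε hε
  obtain ⟨C, hC⟩ := hy ε hε
  refine ⟨C, fun x hx => ?_⟩
  have h1 := hC x hx
  simp only [one_mul, Real.dist_eq, Complex.dist_eq] at h1
  exact h1

end Mixed

end Pool.Agent.X123.MT
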