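import Pool.Agent.X123.MT.Count

/-!
# Exponential moments of logarithmic distances, and products
-/

set_option autoImplicit false

namespace Pool.Agent.X123.MT

open MeasureTheory Filter Topology
open scoped ENNReal

/-- balls of radius `r ≤ 1` have measure at most `C r ^ n` -/
def Balls {F : Type*} [MetricSpace F] [MeasurableSpace F] (μ : Measure F) (n : ℝ) : Prop :=
  ∃ C : ℝ, ∀ (a : F) (r : ℝ), 0 < r → r ≤ 1 →
    μ (Metric.closedBall a r) ≤ ENNReal.ofReal (C * r ^ n)

theorem Balls.restrict {F : Type*} [MetricSpace F] [MeasurableSpace F] {μ : Measure F} {n : ℝ}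
    (h : Balls μ n) (s : Set F) : Balls (μ.restrict s) n := by
  obtain ⟨C, hC⟩ := h
  exact ⟨C, fun a r h0 h1 => (Measure.restrict_apply_le _ _).trans (hC a r h0 h1)⟩

theorem reg_one {F V : Type*} [MetricSpace F] [MeasurableSpace F] [BorelSpace F]
    {μ : Measure F} [IsFiniteMeasure μ] {n : ℝ} (hn : 0 < n) (hμ : Balls μ n) (σ : V → F) :
    Reg μ (fun x y => n * max 0 (Real.log (1 / dist y (σ x)))) := by
  obtain ⟨C, hC⟩ := hμ
  refine ⟨fun x => ?_, fun η hη0 hη1 => ?_⟩
  · have h1 : Measurable fun y : F => dist y (σ x) :=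
      (continuous_id.dist continuous_const).measurable
    exact (measurable_const.max (h1.const_div 1).log).const_mul n
  · obtain ⟨J, hJ⟩ : ∃ J : ℕ → ℝ≥0∞, ∀ k, J k = ENNReal.ofReal
        (|C| * Real.exp ((1 - η) * n)) * ENNReal.ofReal (Real.exp (-(η * n)) ^ k) :=
      ⟨_, fun _ => rfl⟩
    refine ⟨μ Set.univ + ∑' k, J k, ?_, fun x => ?_⟩
    · refine ENNReal.add_ne_top.2 ⟨measure_ne_top _ _, ?_⟩
      simp only [hJ]
      rw [ENNReal.tsum_mul_left]
      refine ENNReal.mul_ne_top ENNReal.ofReal_ne_top ?_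
      refine Summable.tsum_ofReal_ne_top (summable_geometric_of_lt_one (Real.exp_pos _).le ?_)
      rw [Real.exp_lt_one_iff]
      have := mul_pos hη0 hn
      linarith
    · have hpt : ∀ y, ENNReal.ofReal (Real.exp ((1 - η) * (n * max 0
          (Real.log (1 / dist y (σ x)))))) ≤ 1 + ∑' k : ℕ,
          (Metric.closedBall (σ x) (Real.exp (-(k : ℝ)))).indicator
            (fun _ => ENNReal.ofReal (Real.exp ((1 - η) * (n * (k + 1))))) y := by
        intro y
        by_cases hd : Real.log (1 / dist y (σ x)) ≤ 0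
        · rw [max_eq_left hd, mul_zero, mul_zero, Real.exp_zero, ENNReal.ofReal_one]
          exact le_self_add
        · push Not at hd
          have hd0 : 0 < dist y (σ x) := by
            rcases (dist_nonneg : 0 ≤ dist y (σ x)).eq_or_lt with h | h
            · rw [← h] at hd
              simp at hd
            · exact h
          rw [max_eq_right hd.le]
          obtain ⟨k, hk⟩ : ∃ k : ℕ, k = ⌊Real.log (1 / dist y (σ x))⌋₊ := ⟨_, rfl⟩
          have hk1 : (k : ℝ) ≤ Real.log (1 / dist y (σ x)) := by
            rw [hk]; exact Nat.floor_le hd.le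
          have hk2 : Real.log (1 / dist y (σ x)) < k + 1 := by
            rw [hk]; exact Nat.lt_floor_add_one _
          refine le_trans ?_ le_add_self
          refine le_trans ?_ (ENNReal.le_tsum k)
          rw [Set.indicator_of_mem]
          · apply ENNReal.ofReal_le_ofReal
            apply Real.exp_le_exp.2
            apply mul_le_mul_of_nonneg_left _ (by linarith)
            exact mul_le_mul_of_nonneg_left hk2.le hn.le
          · rw [Metric.mem_closedBall]
            rw [one_div, Real.log_inv] at hk1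
            rw [← Real.log_le_iff_le_exp hd0]
            linarith
      refine (lintegral_mono hpt).trans ?_
      rw [lintegral_add_left measurable_const, lintegral_const, one_mul]
      gcongr
      rw [lintegral_tsum fun k => (measurable_const.indicator
        Metric.isClosed_closedBall.measurableSet).aemeasurable]
      refine ENNReal.tsum_le_tsum fun k => ?_
      rw [lintegral_indicator_const Metric.isClosed_closedBall.measurableSet, hJ]
      have h1 := hC (σ x) (Real.exp (-(k : ℝ))) (Real.exp_pos _) (by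
        rw [Real.exp_le_one_iff]
        have : (0 : ℝ) ≤ k := Nat.cast_nonneg k
        linarith)
      calc ENNReal.ofReal (Real.exp ((1 - η) * (n * (k + 1)))) *
            μ (Metric.closedBall (σ x) (Real.exp (-(k : ℝ)))) ≤
          ENNReal.ofReal (Real.exp ((1 - η) * (n * (k + 1)))) *
            ENNReal.ofReal (|C| * Real.exp (-(k : ℝ)) ^ n) := by
            gcongr
            refine h1.trans (ENNReal.ofReal_le_ofReal ?_)
            exact mul_le_mul_of_nonneg_right (le_abs_self C)
              (Real.rpow_nonneg (Real.exp_pos _).le _)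
        _ = ENNReal.ofReal (|C| * Real.exp ((1 - η) * n)) *
            ENNReal.ofReal (Real.exp (-(η * n)) ^ k) := by
            rw [← ENNReal.ofReal_mul (Real.exp_pos _).le, ← ENNReal.ofReal_mul (by positivity)]
            congr 1
            rw [← Real.exp_mul, ← Real.exp_nat_mul]
            have e1 : Real.exp ((1 - η) * (n * (k + 1))) =
                Real.exp ((1 - η) * n) * Real.exp ((1 - η) * n * k) := by
              rw [← Real.exp_add]; congr 1; ring
            have e2 : Real.exp ((k : ℝ) * -(η * n)) =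
                Real.exp ((1 - η) * n * k) * Real.exp (-(k : ℝ) * n) := by
              rw [← Real.exp_add]; congr 1; ring
            rw [e1, e2]
            ring

theorem reg_prod {Y Z V : Type*} [MeasurableSpace Y] [MeasurableSpace Z] {μ : Measure Y}
    {ν : Measure Z} [SFinite ν] {L : V → Y → ℝ} {M : V → Z → ℝ} (hL : Reg μ L) (hM : Reg ν M) :
    Reg (μ.prod ν) (fun x y => L x y.1 + M x y.2) := by
  refine ⟨fun x => ((hL.1 x).comp measurable_fst).add ((hM.1 x).comp measurable_snd),
    fun η h0 h1 => ?_⟩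
  obtain ⟨I, hI, h2⟩ := hL.2 η h0 h1
  obtain ⟨J, hJ, h3⟩ := hM.2 η h0 h1
  refine ⟨I * J, ENNReal.mul_ne_top hI hJ, fun x => ?_⟩
  have e : ∀ y : Y × Z, ENNReal.ofReal (Real.exp ((1 - η) * (L x y.1 + M x y.2))) =
      ENNReal.ofReal (Real.exp ((1 - η) * L x y.1)) *
        ENNReal.ofReal (Real.exp ((1 - η) * M x y.2)) := by
    intro y
    rw [← ENNReal.ofReal_mul (Real.exp_pos _).le, ← Real.exp_add, mul_add]
  simp only [e]
  rw [lintegral_prod_mul ((hL.1 x).const_mul _).exp.ennreal_ofReal.aemeasurable
    ((hM.1 x).const_mul _).exp.ennreal_ofReal.aemeasurable]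
  exact mul_le_mul' (h2 x) (h3 x)

theorem reg_pi {ι V : Type*} [Fintype ι] {Y : ι → Type*} [∀ i, MeasurableSpace (Y i)]
    {μ : ∀ i, Measure (Y i)} [∀ i, SigmaFinite (μ i)] {L : ∀ i, V → Y i → ℝ}
    (h : ∀ i, Reg (μ i) (L i)) : Reg (Measure.pi μ) (fun x y => ∑ i, L i x (y i)) := by
  refine ⟨fun x => Finset.measurable_sum _ fun i _ => ((h i).1 x).comp (measurable_pi_apply i),
    fun η h0 h1 => ?_⟩
  choose I hI h2 using fun i => (h i).2 η h0 h1
  refine ⟨∏ i, I i, ENNReal.prod_ne_top fun i _ => hI i, fun x => ?_⟩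
  have hint : ∀ i, Integrable (fun z => Real.exp ((1 - η) * L i x z)) (μ i) := by
    intro i
    refine ⟨(((h i).1 x).const_mul _).exp.aestronglyMeasurable, ?_⟩
    rw [hasFiniteIntegral_iff_ofReal (Eventually.of_forall fun z => (Real.exp_pos _).le)]
    exact (h2 i x).trans_lt (hI i).lt_top
  have e : ∀ y : ∀ i, Y i, Real.exp ((1 - η) * ∑ i, L i x (y i)) =
      ∏ i, Real.exp ((1 - η) * L i x (y i)) := by
    intro y
    rw [← Real.exp_sum, Finset.mul_sum]
  simp only [e]
  have h3 : Integrable (fun y : ∀ i, Y i => ∏ i, Real.exp ((1 - η) * L i x (y i)))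
      (Measure.pi μ) := Integrable.fintype_prod_dep hint
  rw [← ofReal_integral_eq_lintegral_ofReal h3
    (Eventually.of_forall fun y => Finset.prod_nonneg fun i _ => (Real.exp_pos _).le)]
  have h4 : ∫ y : ∀ i, Y i, ∏ i, Real.exp ((1 - η) * L i x (y i)) ∂(Measure.pi μ) =
      ∏ i, ∫ z, Real.exp ((1 - η) * L i x z) ∂(μ i) :=
    integral_fintype_prod_eq_prod (𝕜 := ℝ) (fun i z => Real.exp ((1 - η) * L i x z))
  rw [h4, ENNReal.ofReal_prod_of_nonneg fun i _ => integral_nonneg fun z => (Real.exp_pos _).le]
  refine Finset.prod_le_prod' fun i _ => ?_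
  rw [ofReal_integral_eq_lintegral_ofReal (hint i)
    (Eventually.of_forall fun z => (Real.exp_pos _).le)]
  exact h2 i x

end Pool.Agent.X123.MT
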